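import Mathlib
import Pool.Agent.H15.PL4

set_option autoImplicit false

namespace Pool.Agent.Results.MP_f5469c_gt.BelowCovM

theorem result (G : AddSubgroup ℝ) (hG : Dense (G : Set ℝ))
    (hcov : ∀ F : G → Set (ℕ → ℕ), (∀ g, IsMeagre (F g)) → ⋃ g, F g ≠ Set.univ) :
    ∃ f : G → G, Function.Bijective f ∧ (∀ x y, dist (f x) (f y) ≤ dist x y) ∧ ¬ Isometry f :=
  Pool.Agent.H15.PL.covM hG hcov

end Pool.Agent.Results.MP_f5469c_gt.BelowCovM
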